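import Mathlib
import Pool.Agent.Run7.h257.Final
import Pool.Agent.Run7.h257.Orders

/-!
There are infinitely many `n > 6` such that `2 ^ n - 1` has a primitive prime divisor `p` with
`v_p (2 ^ n - 1) = 1`; equivalently there are infinitely many primes `p` with `2 ^ (p - 1)` not
congruent to `1` modulo `p ^ 2` (non-Wieferich primes).
-/

theorem Pool.Agent.Results.MP_ac1dd9_nt.SimplePrimitiveDivisor.result :
    {n : ℕ | 6 < n ∧ ∃ p : ℕ, p.Prime ∧ p ∣ 2 ^ n - 1 ∧
      (∀ m : ℕ, 1 ≤ m → m < n → ¬ p ∣ 2 ^ m - 1) ∧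
        padicValNat p (2 ^ n - 1) = 1}.Infinite :=
  Run7.h257.result_of Run7.h257.not_wief
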